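import Pool.Agent.Lib.MP_4f4e79_gt.Bar

namespace Pool.Agent.Results.MP_4f4e79_gt.BoundedGeometryBase

open Pool.Agent.Apc

universe u v w t

/-- Fibering without increase of level over a base family of bounded geometry when the
preimages of bounded families have uniform asymptotic property C. -/
theorem result {X : Type u} {Y : Type v} {ι : Type w} [MetricSpace X] [MetricSpace Y]
    (A : ι → Set X) (B : ι → Set Y) (f : ι → X → Y) (𝒴 : Set (Set Y)) (hB : ∀ i, B i ∈ 𝒴)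
    (hf : ∀ i, Set.MapsTo (f i) (A i) (B i)) (ρ : ℝ → ℝ) (hρ : MonotoneOn ρ (Set.Ici 0))
    (hexp : ∀ i, ∀ x ∈ A i, ∀ y ∈ A i, dist (f i x) (f i y) ≤ ρ (dist x y))
    (α : Ordinal.{t}) (hα : 0 < α) (hY : Cls α 𝒴) (D₀ : ℝ)
    (hbg : ∀ D : ℝ, ∃ N : ℕ, ∀ W ∈ 𝒴, ∀ V ⊆ W, (∀ y ∈ V, ∀ y' ∈ V, dist y y' ≤ D) →
      ∃ U : ℕ → Set Y, (∀ l, ∀ y ∈ U l, ∀ y' ∈ U l, dist y y' ≤ D₀) ∧ ∀ y ∈ V, ∃ l < N, y ∈ U l)
    (hfib : ∀ ℬ : Set (Set Y), BddFam ℬ → (∀ V ∈ ℬ, ∃ W ∈ 𝒴, V ⊆ W) →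
      Cls (1 : Ordinal.{t}) {S | ∃ i, ∃ V ∈ ℬ, S = A i ∩ f i ⁻¹' V}) :
    Cls α (Set.range A) := by
  refine Trap.as_cls_sub (Bar.cls_of_pull hρ hexp (fun Z hZ h => Bar.pull hρ hexp hbg
    (fun ℬ h1 h2 => apc1_of_cls (hfib ℬ h1 h2)) hZ h) α hα 𝒴 (fun V hV => ⟨V, hV, le_rfl⟩) hY) ?_
  rintro _ ⟨i, rfl⟩
  exact ⟨i, B i, hB i, (Set.inter_eq_left.2 (hf i)).symm⟩

end Pool.Agent.Results.MP_4f4e79_gt.BoundedGeometryBase
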