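import Pool.Agent.Lib.MP_4f4e79_gt.Dg.Apc

namespace Pool.Agent.Results.MP_4f4e79_gt.WeakFdcFibres

open Pool.Agent.Apc

universe u v w t

/-- Fibering without increase of level over an arbitrary base family when the preimages of
bounded families have weak finite decomposition complexity. -/
theorem result {X : Type u} {Y : Type v} {ι : Type w} [MetricSpace X] [MetricSpace Y]
    (A : ι → Set X) (B : ι → Set Y) (f : ι → X → Y) (𝒴 : Set (Set Y)) (hB : ∀ i, B i ∈ 𝒴)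
    (hf : ∀ i, Set.MapsTo (f i) (A i) (B i)) (ρ : ℝ → ℝ) (hρ : MonotoneOn ρ (Set.Ici 0))
    (hexp : ∀ i, ∀ x ∈ A i, ∀ y ∈ A i, dist (f i x) (f i y) ≤ ρ (dist x y))
    (α : Ordinal.{t}) (hα : 0 < α) (hY : Cls α 𝒴)
    (hfib : ∀ ℬ : Set (Set Y), BddFam ℬ → (∀ V ∈ ℬ, ∃ W ∈ 𝒴, V ⊆ W) →
      WFdc {S | ∃ i, ∃ V ∈ ℬ, S = A i ∩ f i ⁻¹' V}) :
    Cls α (Set.range A) := by
  refine Trap.as_cls_sub (Bar.cls_of_pull hρ hexp (fun Z hZ h => Dg.pull hρ hexp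
    (fun ℬ h1 h2 => ⟨Dg.wfdc_apc (hfib ℬ h1 h2), _, hfib ℬ h1 h2,
      fun P hP _ => ⟨P, hP, subset_rfl⟩⟩) hZ h) α hα 𝒴 (fun V hV => ⟨V, hV, le_rfl⟩) hY) ?_
  rintro _ ⟨i, rfl⟩
  exact ⟨i, B i, hB i, (Set.inter_eq_left.2 (hf i)).symm⟩

end Pool.Agent.Results.MP_4f4e79_gt.WeakFdcFibres
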